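import Pool.Graph.R_pool_sql_team_seeded_3997aac3.Q96.EG.Tame

/-! # Project FH (helper664), job RATE (helper597): rates of convergence of translates -/

set_option autoImplicit false

namespace Pool.Agent.H597.FH

open MvPolynomial Filter Topology Pool.Agent.W996.EC Pool.Agent.Q72.EG Pool.Agent.H581R2
open Pool.Agent.Q96.EG

/-- evaluation bound from a coefficient bound -/
theorem eval_bound {n : ℕ} (A : Finset (Fin n →₀ ℕ)) (d : ℕ) (hAd : ∀ μ ∈ A, ∑ i, μ i ≤ d)
    (f : MvPolynomial (Fin n) ℂ) (hf : ∀ μ, μ ∉ A → coeff μ f = 0) (ε t : ℝ) (hε : 0 ≤ ε)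
    (ht : 1 ≤ t) (hc : ∀ μ ∈ A, ‖coeff μ f‖ ≤ ε) (x : Fin n → ℂ) (hx : ‖x‖ ≤ t) :
    ‖eval x f‖ ≤ A.card * (ε * t ^ d) := by
  classical
  have h1 : f.support ⊆ A := by
    intro μ hμ
    by_contra h
    exact (mem_support_iff.1 hμ) (hf μ h)
  rw [eval_eq']
  rw [Finset.sum_subset h1 (fun μ _ hμ => by
    rw [notMem_support_iff.1 hμ, zero_mul])]
  calc ‖∑ μ ∈ A, coeff μ f * ∏ i, x i ^ μ i‖ ≤ ∑ μ ∈ A, ‖coeff μ f * ∏ i, x i ^ μ i‖ :=
        norm_sum_le _ _
    _ ≤ ∑ μ ∈ A, ε * t ^ d := by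
        refine Finset.sum_le_sum fun μ hμ => ?_
        rw [norm_mul]
        refine mul_le_mul (hc μ hμ) ?_ (norm_nonneg _) hε
        rw [norm_prod]
        calc ∏ i, ‖x i ^ μ i‖ ≤ ∏ i, t ^ μ i := by
              refine Finset.prod_le_prod (fun i _ => norm_nonneg _) fun i _ => ?_
              rw [norm_pow]
              exact pow_le_pow_left₀ (norm_nonneg _) ((norm_le_pi_norm x i).trans hx) _
          _ = t ^ (∑ i, μ i) := by rw [Finset.prod_pow_eq_pow_sum]
          _ ≤ t ^ d := pow_le_pow_right₀ ht (hAd μ hμ)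
    _ = A.card * (ε * t ^ d) := by rw [Finset.sum_const, nsmul_eq_mul]

theorem rate0 (hg : S_grow) : ∀ (n : ℕ) (P q : MvPolynomial (Fin n) ℂ), LimOne P q →
    ∃ D L : ℝ, ∀ t : ℝ, L ≤ t → ∃ (k : Fin n → ℝ) (c : ℂ), ‖k‖ ≤ t ^ D ∧
      ∀ x : Fin n → ℂ, ‖x‖ ≤ t →
        ‖c * eval (fun i => x i + Complex.I * (k i : ℂ)) P - eval x q‖ ≤ t⁻¹ := by
  classical
  intro n P q hlim
  obtain ⟨hq, k, c, ⟨d, hd⟩, hconv⟩ := hlim
  obtain ⟨d0, hd0⟩ : ∃ d0, d0 = max P.totalDegree q.totalDegree := ⟨_, rfl⟩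
  obtain ⟨A, hAdef⟩ : ∃ A : Finset (Fin n →₀ ℕ), A =
    (Finset.range (d0 + 1)).biUnion (fun j => (Finset.univ : Finset (Fin n)).finsuppAntidiag j) :=
    ⟨_, rfl⟩
  have hA : ∀ f : MvPolynomial (Fin n) ℂ, f.totalDegree ≤ d0 → ∀ μ, μ ∉ A → coeff μ f = 0 := by
    intro f hf μ hμ
    by_contra h
    apply hμ
    have h1 := le_totalDegree (mem_support_iff.2 h)
    rw [Finsupp.sum_fintype _ _ (fun _ => rfl)] at h1
    rw [hAdef, Finset.mem_biUnion]
    exact ⟨∑ i, μ i, Finset.mem_range.2 (by omega), Finset.mem_finsuppAntidiag.2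
      ⟨rfl, Finset.subset_univ _⟩⟩
  have hAd : ∀ μ ∈ A, ∑ i, μ i ≤ d0 := by
    intro μ hμ
    rw [hAdef, Finset.mem_biUnion] at hμ
    obtain ⟨j, hj, hμ⟩ := hμ
    rw [Finset.mem_finsuppAntidiag] at hμ
    rw [hμ.1]
    have := Finset.mem_range.1 hj
    omega
  have hAP := hA P (by rw [hd0]; exact le_max_left _ _)
  have hAq := hA q (by rw [hd0]; exact le_max_right _ _)
  have hAt : ∀ (c : ℂ) (t : ℝ) (k : Fin n → ℝ) μ, μ ∉ A → coeff μ (C c * tr t k P) = 0 := by
    intro c t k μ hμ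
    apply hA _ _ μ hμ
    refine (totalDegree_mul _ _).trans ?_
    rw [totalDegree_C, zero_add, hd0]
    exact (totalDegree_tr_le _ _ _).trans (le_max_left _ _)
  have key : ∃ D L : ℝ, ∀ t : ℝ, L ≤ t → ∃ k : Fin n → ℝ, ‖k‖ ≤ t ^ D ∧ 0 < t ∧
      ∃ c : ℂ, ∀ μ ∈ A, t ^ (d0 + 2) * ‖coeff μ (C c * tr 1 k P) - coeff μ q‖ < 1 := by
    -- the parameters
    let ι : Type := Option (Bool × Bool × A)
    let s : ι → ℝ := fun o => o.elim 1 fun x =>
      if x.1 then (if x.2.1 then (coeff x.2.2.1 q).im else (coeff x.2.2.1 q).re)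
      else (if x.2.1 then (coeff x.2.2.1 P).im else (coeff x.2.2.1 P).re)
    let J : Type := ι ⊕ (Fin 1 ⊕ Fin n)
    let pb : (J ⊕ Fin 2 → ℝ) → Prop := fun u =>
      ∀ μ ∈ (Finset.univ : Finset A),
        u (Sum.inl (Sum.inr (Sum.inl 0))) ^ (2 * (d0 + 2)) *
        ((coeff μ.1 (C ((u (Sum.inr 0) : ℂ) + (u (Sum.inr 1) : ℂ) * Complex.I) *
          Fv (J := J ⊕ Fin 2) (A := A) (fun ν => Sum.inl (Sum.inl (some (false, false, ν))))
            (fun ν => Sum.inl (Sum.inl (some (false, true, ν)))) (Sum.inl (Sum.inl none))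
            (fun i => Sum.inl (Sum.inr (Sum.inr i))) u) -
          ((u (Sum.inl (Sum.inl (some (true, false, μ)))) : ℂ) +
            (u (Sum.inl (Sum.inl (some (true, true, μ)))) : ℂ) * Complex.I)).re ^ 2 +
        (coeff μ.1 (C ((u (Sum.inr 0) : ℂ) + (u (Sum.inr 1) : ℂ) * Complex.I) *
          Fv (J := J ⊕ Fin 2) (A := A) (fun ν => Sum.inl (Sum.inl (some (false, false, ν))))
            (fun ν => Sum.inl (Sum.inl (some (false, true, ν)))) (Sum.inl (Sum.inl none))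
            (fun i => Sum.inl (Sum.inr (Sum.inr i))) u) -
          ((u (Sum.inl (Sum.inl (some (true, false, μ)))) : ℂ) +
            (u (Sum.inl (Sum.inl (some (true, true, μ)))) : ℂ) * Complex.I)).im ^ 2) <
          u (Sum.inl (Sum.inl none)) ^ 2
    have hpb : SAP pb := by
      refine SAP.forall_mem _ fun μ _ => ?_
      have hc : CF (fun u : J ⊕ Fin 2 → ℝ =>
          coeff μ.1 (C ((u (Sum.inr 0) : ℂ) + (u (Sum.inr 1) : ℂ) * Complex.I) *
          Fv (J := J ⊕ Fin 2) (A := A) (fun ν => Sum.inl (Sum.inl (some (false, false, ν))))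
            (fun ν => Sum.inl (Sum.inl (some (false, true, ν)))) (Sum.inl (Sum.inl none))
            (fun i => Sum.inl (Sum.inr (Sum.inr i))) u) -
          ((u (Sum.inl (Sum.inl (some (true, false, μ)))) : ℂ) +
            (u (Sum.inl (Sum.inl (some (true, true, μ)))) : ℂ) * Complex.I)) := by
        refine CF.sub ?_ ?_
        · exact ((PP.C ((CF.ofReal (PF.coord _)).add ((CF.ofReal (PF.coord _)).mul CF.I))).mul
            (PP.Fv _ _ _ _)) μ.1
        · exact (CF.ofReal (PF.coord _)).add ((CF.ofReal (PF.coord _)).mul CF.I)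
      exact SAP.lt (((PF.coord _).pow _).mul ((hc.1.pow 2).add (hc.2.pow 2)))
        ((PF.coord _).pow 2)
    let p : (J → ℝ) → Prop := fun v => 0 < v (Sum.inr (Sum.inl 0)) ∧
      ∃ x : Fin 2 → ℝ, pb (Sum.elim v x)
    have hp : SAP p := (SAP.pos (PF.coord _)).and (SAP.exists_block 2 hpb)
    -- the meaning of the predicate
    have hpm : ∀ (t : ℝ) (_ : 0 < t) (κ : Fin n → ℝ) (x : Fin 2 → ℝ),
        pb (Sum.elim (Sum.elim s (Sum.elim (fun _ => t) κ)) x) ↔
        ∀ μ ∈ A, t ^ (d0 + 2) *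
          ‖coeff μ (C ((x 0 : ℂ) + (x 1 : ℂ) * Complex.I) * tr 1 κ P) - coeff μ q‖ < 1 := by
      intro t ht κ x
      have hF := Fv_eq (J := J ⊕ Fin 2) (A := A)
        (fun ν => Sum.inl (Sum.inl (some (false, false, ν))))
        (fun ν => Sum.inl (Sum.inl (some (false, true, ν)))) (Sum.inl (Sum.inl none))
        (fun i => Sum.inl (Sum.inr (Sum.inr i)))
        (Sum.elim (Sum.elim s (Sum.elim (fun _ => t) κ)) x) P hAP
        (fun ν => rfl) (fun ν => rfl)
      have h1 : ∀ z : ℂ, t ^ (d0 + 2) * ‖z‖ < 1 ↔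
          t ^ (2 * (d0 + 2)) * (z.re ^ 2 + z.im ^ 2) < 1 ^ 2 := by
        intro z
        have hz : z.re ^ 2 + z.im ^ 2 = ‖z‖ ^ 2 := by
          rw [Complex.sq_norm, Complex.normSq_apply]
          ring
        have hz2 : t ^ (2 * (d0 + 2)) * (z.re ^ 2 + z.im ^ 2) = (t ^ (d0 + 2) * ‖z‖) ^ 2 := by
          rw [hz]
          ring
        rw [hz2]
        constructor
        · intro h
          exact pow_lt_pow_left₀ h (by positivity) (by norm_num)
        · intro h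
          exact lt_of_pow_lt_pow_left₀ 2 (by norm_num) h
      constructor
      · intro h μ hμ
        have h2 := h ⟨μ, hμ⟩ (Finset.mem_univ _)
        rw [hF] at h2
        rw [h1]
        have h3 : (coeff μ q) = (((coeff μ q).re : ℂ) + ((coeff μ q).im : ℂ) * Complex.I) :=
          (Complex.re_add_im _).symm
        rw [h3]
        exact h2
      · intro h μ _
        have h2 := h μ.1 μ.2
        rw [h1] at h2
        have h3 : (coeff μ.1 q) = (((coeff μ.1 q).re : ℂ) + ((coeff μ.1 q).im : ℂ) * Complex.I) :=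
          (Complex.re_add_im _).symm
        rw [h3] at h2
        rw [hF]
        exact h2
    obtain ⟨D, L, hDL⟩ := grow' hg n p hp s (by
      intro L
      obtain ⟨t, ht⟩ : ∃ t : ℝ, t = max L 1 := ⟨_, rfl⟩
      have ht0 : 0 < t := by rw [ht]; exact lt_of_lt_of_le one_pos (le_max_right _ _)
      have htL : L ≤ t := by rw [ht]; exact le_max_left _ _
      have hε : 0 < (t ^ (d0 + 2))⁻¹ := by positivity
      have h1 : ∀ᶠ j in atTop, ∀ μ ∈ A,
          ‖coeff μ (C (c j) * tr 1 (k j) P) - coeff μ q‖ < (t ^ (d0 + 2))⁻¹ := by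
        rw [eventually_all_finset]
        intro μ _
        have h2 := (hconv μ).sub_const (coeff μ q)
        rw [sub_self] at h2
        have h3 := h2.norm
        rw [norm_zero] at h3
        exact h3.eventually (gt_mem_nhds hε)
      obtain ⟨j, hj1⟩ := h1.exists
      refine ⟨t, htL, k j, ht0, ![(c j).re, (c j).im], ?_⟩
      rw [hpm t ht0]
      intro μ hμ
      have h4 : (((![(c j).re, (c j).im] : Fin 2 → ℝ) 0 : ℂ) +
          ((![(c j).re, (c j).im] : Fin 2 → ℝ) 1 : ℂ) * Complex.I) = c j := by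
        simp only [Matrix.cons_val_zero, Matrix.cons_val_one]
        exact Complex.re_add_im _
      rw [h4]
      have h5 := mul_lt_mul_of_pos_left (hj1 μ hμ) (by positivity : 0 < t ^ (d0 + 2))
      rwa [mul_inv_cancel₀ (by positivity)] at h5)
    refine ⟨D, L, fun t ht => ?_⟩
    obtain ⟨κ, hκ, ht0, x, hx⟩ := hDL t ht
    exact ⟨κ, hκ, ht0, _, (hpm t ht0 κ x).1 hx⟩
  obtain ⟨D, L, hDL⟩ := key
  refine ⟨D, max L (max 1 A.card), fun t ht => ?_⟩
  have htL : L ≤ t := (le_max_left _ _).trans ht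
  have ht1 : 1 ≤ t := (le_max_left _ _).trans ((le_max_right _ _).trans ht)
  have htA : (A.card : ℝ) ≤ t := (le_max_right _ _).trans ((le_max_right _ _).trans ht)
  obtain ⟨κ, hκ, ht0, c', hc'⟩ := hDL t htL
  refine ⟨κ, c', hκ, fun x hx => ?_⟩
  have h1 : c' * eval (fun i => x i + Complex.I * (κ i : ℂ)) P - eval x q =
      eval x (C c' * tr 1 κ P - q) := by
    rw [map_sub, map_mul, eval_C, eval_tr]
    simp
  rw [h1]
  refine (eval_bound A d0 hAd _ ?_ ((t ^ (d0 + 2))⁻¹) t (by positivity) ht1 ?_ x hx).trans ?_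
  · intro μ hμ
    rw [coeff_sub, hAt _ _ _ _ hμ, hAq μ hμ, sub_zero]
  · intro μ hμ
    have h2 := hc' μ hμ
    rw [coeff_sub]
    rw [← one_div, le_div_iff₀ (by positivity), mul_comm]
    exact h2.le
  · have h3 : (t ^ (d0 + 2))⁻¹ * t ^ d0 = (t ^ 2)⁻¹ := by
      rw [pow_add]
      field_simp
    rw [h3]
    calc (A.card : ℝ) * (t ^ 2)⁻¹ ≤ t * (t ^ 2)⁻¹ :=
          mul_le_mul_of_nonneg_right htA (by positivity)
      _ = t⁻¹ := by
          field_simp

end Pool.Agent.H597.FH
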