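import Pool.Agent.H664.FH.Stm
import Pool.Agent.H597.FH.Rate0

/-! # Project FH (helper664), job RATE (helper597) -/

set_option autoImplicit false

namespace Pool.Agent.H597.FH

theorem rate : Pool.Agent.H664.FH.S_rate :=
  fun n P q _ h => rate0 Pool.Agent.Q96.EG.grow n P q h

end Pool.Agent.H597.FH
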